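import Pool.Agent.H38.AT.Targets

/-!
# Almost all admissible `n`-tuples with few prime factors (MP_7ecdd4_nt): assembly
-/

set_option autoImplicit false

open Pool.Agent.H38.AE.Statement (Admissible radical)
open Pool.Agent.H38.PS (pd)
open Pool.Agent.H38.AT

namespace Pool.Agent.H18.AT

theorem cd_mono {ρ ρ' X : ℝ} {n : ℕ} {x : Fin n → ℤ} (hX : 1 ≤ X) (h : ρ ≤ ρ') (hx : Cd ρ X x) :
    Cd ρ' X x := by
  have h1 : ρ * Real.log X ≤ ρ' * Real.log X :=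
    mul_le_mul_of_nonneg_right h (Real.log_nonneg hX)
  exact le_trans hx h1

theorem htn_ge {n : ℕ} (x : Fin n → ℤ) (i : Fin n) : (x i).natAbs ≤ htn x :=
  Finset.le_sup (f := fun i => (x i).natAbs) (Finset.mem_univ i)

/-- boxes are finite -/
theorem box_fin (n N : ℕ) : {x : Fin n → ℤ | ∀ i, (x i).natAbs ≤ N}.Finite := by
  have h : {x : Fin n → ℤ | ∀ i, (x i).natAbs ≤ N} ⊆
      Set.Icc (fun _ => -(N : ℤ)) (fun _ => (N : ℤ)) := by
    intro x hx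
    refine ⟨fun i => ?_, fun i => ?_⟩
    · have := hx i
      show -(N : ℤ) ≤ x i
      omega
    · have := hx i
      show x i ≤ (N : ℤ)
      omega
  exact (Set.finite_Icc _ _).subset h

theorem htn_le_of_unit {n : ℕ} {x : Fin n → ℤ} (hx : Admissible x)
    (h : (prn x).primeFactors.card = 0) : htn x ≤ 1 := by
  have h0 : prn x ≠ 0 := by
    unfold prn
    rw [Int.natAbs_ne_zero, Finset.prod_ne_zero_iff]
    exact fun i _ => hx.1 i
  have h1 : prn x = 1 := by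
    rw [Finset.card_eq_zero, Nat.primeFactors_eq_empty] at h
    omega
  unfold htn
  apply Finset.sup_le
  intro i _
  have h2 : (x i).natAbs ∣ prn x := by
    unfold prn
    exact Int.natAbs_dvd_natAbs.2 (Finset.dvd_prod_of_mem _ (Finset.mem_univ i))
  rw [h1] at h2
  exact Nat.le_of_dvd one_pos h2

theorem htn_bound {n : ℕ} {x : Fin n → ℤ} {ρ X X₀ : ℝ} (hx : Admissible x) (hρ : 0 < ρ)
    (hX : 2 ≤ X) (hX₀ : X ≤ X₀) (hc : Cd ρ X x) :
    htn x ≤ ⌈Real.exp (Real.exp (ρ * Real.log X₀) * Real.log X₀)⌉₊ := by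
  have hlX : 0 < Real.log X := Real.log_pos (by linarith)
  have hlX₀ : Real.log X ≤ Real.log X₀ := Real.log_le_log (by linarith) hX₀
  rcases Nat.eq_zero_or_pos (prn x).primeFactors.card with h0 | h0
  · refine (htn_le_of_unit hx h0).trans ?_
    have h1 : (0 : ℝ) < Real.exp (Real.exp (ρ * Real.log X₀) * Real.log X₀) := Real.exp_pos _
    exact Nat.ceil_pos.2 h1
  · rcases Nat.eq_zero_or_pos (htn x) with h1 | h1
    · rw [h1]
      exact Nat.zero_le _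
    have hω : (1 : ℝ) ≤ ((prn x).primeFactors.card : ℝ) := by exact_mod_cast h0
    have hh : (1 : ℝ) ≤ (htn x : ℝ) := by exact_mod_cast h1
    have hlh : 0 ≤ Real.log (htn x) := Real.log_nonneg hh
    have hq : 0 ≤ Real.log (htn x) / Real.log X := by positivity
    have h2 : 0 ≤ Real.log (2 + Real.log (htn x) / Real.log X) :=
      Real.log_nonneg (by linarith)
    have h3 : Real.log (2 + Real.log (htn x) / Real.log X) ≤ ρ * Real.log X := by
      refine le_trans ?_ hc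
      nlinarith
    have h4 : 2 + Real.log (htn x) / Real.log X ≤ Real.exp (ρ * Real.log X₀) := by
      rw [← Real.log_le_iff_le_exp (by linarith)]
      refine h3.trans ?_
      exact mul_le_mul_of_nonneg_left hlX₀ hρ.le
    have h5 : Real.log (htn x) ≤ Real.exp (ρ * Real.log X₀) * Real.log X₀ := by
      have h6 : Real.log (htn x) / Real.log X ≤ Real.exp (ρ * Real.log X₀) := by linarith
      rw [div_le_iff₀ hlX] at h6
      refine h6.trans ?_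
      exact mul_le_mul_of_nonneg_left hlX₀ (Real.exp_pos _).le
    have h7 : (htn x : ℝ) ≤ Real.exp (Real.exp (ρ * Real.log X₀) * Real.log X₀) := by
      rwa [Real.log_le_iff_le_exp (by linarith)] at h5
    exact_mod_cast h7.trans (Nat.le_ceil _)

theorem pf_ALN (hP : T_POL) (hR : T_RGN) (hN : T_NRN) : T_ALN := by
  intro n ε hn hε
  obtain ⟨A₀, ρ₁, c₁, C₁, X₁, hA₀, hρ₁, hc₁, hC₁, hX₁, h₁⟩ := hR n hn
  obtain ⟨ρ₂, c₂, C₂, X₂, hρ₂, hc₂, hC₂, hX₂, h₂⟩ := hN n ρ₁ hn hρ₁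
  obtain ⟨c₃, C₃, hc₃, hC₃, h₃⟩ := hP n ε A₀ hn hε hA₀
  set ρ : ℝ := min ρ₁ ρ₂ with hρdef
  have hρ : 0 < ρ := lt_min hρ₁ hρ₂
  set c : ℝ := min (min c₁ c₂) (min c₃ (1 / 2)) with hcdef
  have hc : 0 < c := lt_min (lt_min hc₁ hc₂) (lt_min hc₃ (by norm_num))
  have hcc₁ : c ≤ c₁ := (min_le_left _ _).trans (min_le_left _ _)
  have hcc₂ : c ≤ c₂ := (min_le_left _ _).trans (min_le_right _ _)
  have hcc₃ : c ≤ c₃ := (min_le_right _ _).trans (min_le_left _ _)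
  have hcc₄ : c ≤ 1 / 2 := (min_le_right _ _).trans (min_le_right _ _)
  set X₀ : ℝ := max X₁ X₂ with hX₀def
  set N : ℕ := ⌈Real.exp (Real.exp (ρ * Real.log X₀) * Real.log X₀)⌉₊ with hNdef
  set T : Set (Fin n → ℤ) := {x | ∀ i, (x i).natAbs ≤ N} with hTdef
  have hT : T.Finite := box_fin n N
  refine ⟨ρ, c, C₁ + C₂ + C₃ + T.ncard, hρ, hc, by positivity, fun X hX => ?_⟩
  have hX1 : 1 ≤ X := by linarith
  have hX0 : 0 < X := by linarith
  set S : Set (Fin n → ℤ) := {x : Fin n → ℤ | Admissible x ∧ (pd (prn x).primeFactors : ℝ) ≤ X ∧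
    Cd ρ X x ∧ (pd (prn x).primeFactors : ℝ) ^ (1 / (n : ℝ) + ε) < (htn x : ℝ)} with hSdef
  have hTc : (0 : ℝ) ≤ (T.ncard : ℝ) := Nat.cast_nonneg _
  have hexp : (0 : ℝ) ≤ 1 - 1 / (n : ℝ) - c := by
    have h3 : (3 : ℝ) ≤ n := by exact_mod_cast hn
    have : 1 / (n : ℝ) ≤ 1 / 3 := by
      apply one_div_le_one_div_of_le (by norm_num) h3
    linarith
  have hXe : 1 ≤ X ^ (1 - 1 / (n : ℝ) - c) := Real.one_le_rpow hX1 hexp
  rcases le_or_gt X₀ X with hX₀ | hX₀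
  · -- large `X`
    obtain ⟨f₁, g₁⟩ := h₁ X ((le_max_left _ _).trans hX₀)
    obtain ⟨f₂, g₂⟩ := h₂ X ((le_max_right _ _).trans hX₀)
    obtain ⟨f₃, g₃⟩ := h₃ X hX1
    set S₁ : Set (Fin n → ℤ) :=
      {x | x ∈ RdN n X ρ₁ ∧ Cd ρ₁ X x ∧ A₀ * Real.log X ≤ Real.log (htn x)} with hS₁
    set S₂ : Set (Fin n → ℤ) := {x : Fin n → ℤ | Admissible x ∧
      (pd (prn x).primeFactors : ℝ) ≤ X ∧ Cd ρ₂ X x ∧ x ∉ RdN n X ρ₁} with hS₂
    set S₃ : Set (Fin n → ℤ) := {x : Fin n → ℤ | Admissible x ∧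
      (pd (prn x).primeFactors : ℝ) ≤ X ∧
      (pd (prn x).primeFactors : ℝ) ^ (1 / (n : ℝ) + ε) < (htn x : ℝ) ∧
      Real.log (htn x) ≤ A₀ * Real.log X} with hS₃
    have hsub : S ⊆ (S₁ ∪ S₂) ∪ S₃ := by
      rintro x ⟨hx1, hx2, hx3, hx4⟩
      rcases le_or_gt (Real.log (htn x)) (A₀ * Real.log X) with h | h
      · exact Or.inr ⟨hx1, hx2, hx4, h⟩
      · left
        by_cases hr : x ∈ RdN n X ρ₁
        · exact Or.inl ⟨hr, cd_mono hX1 (min_le_left _ _) hx3, h.le⟩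
        · exact Or.inr ⟨hx1, hx2, cd_mono hX1 (min_le_right _ _) hx3, hr⟩
    have hfin : ((S₁ ∪ S₂) ∪ S₃).Finite := (f₁.union f₂).union f₃
    refine ⟨hfin.subset hsub, ?_⟩
    have hcard : (S.ncard : ℝ) ≤ S₁.ncard + S₂.ncard + S₃.ncard := by
      have e1 := Set.ncard_le_ncard hsub hfin
      have e2 := Set.ncard_union_le (S₁ ∪ S₂) S₃
      have e3 := Set.ncard_union_le S₁ S₂
      have e4 : S.ncard ≤ S₁.ncard + S₂.ncard + S₃.ncard := by omega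
      exact_mod_cast e4
    have m : ∀ c' : ℝ, c ≤ c' → X ^ (1 - 1 / (n : ℝ) - c') ≤ X ^ (1 - 1 / (n : ℝ) - c) :=
      fun c' h => Real.rpow_le_rpow_of_exponent_le hX1 (by linarith)
    have e1 : C₁ * X ^ (1 - 1 / (n : ℝ) - c₁) ≤ C₁ * X ^ (1 - 1 / (n : ℝ) - c) :=
      mul_le_mul_of_nonneg_left (m c₁ hcc₁) hC₁.le
    have e2 : C₂ * X ^ (1 - 1 / (n : ℝ) - c₂) ≤ C₂ * X ^ (1 - 1 / (n : ℝ) - c) :=
      mul_le_mul_of_nonneg_left (m c₂ hcc₂) hC₂.le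
    have e3 : C₃ * X ^ (1 - 1 / (n : ℝ) - c₃) ≤ C₃ * X ^ (1 - 1 / (n : ℝ) - c) :=
      mul_le_mul_of_nonneg_left (m c₃ hcc₃) hC₃.le
    have e4 : 0 ≤ (T.ncard : ℝ) * X ^ (1 - 1 / (n : ℝ) - c) := by positivity
    have e5 : (C₁ + C₂ + C₃ + T.ncard) * X ^ (1 - 1 / (n : ℝ) - c) =
        C₁ * X ^ (1 - 1 / (n : ℝ) - c) + C₂ * X ^ (1 - 1 / (n : ℝ) - c) +
        C₃ * X ^ (1 - 1 / (n : ℝ) - c) + T.ncard * X ^ (1 - 1 / (n : ℝ) - c) := by ring
    rw [e5]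
    linarith
  · -- small `X`
    have hsub : S ⊆ T := by
      rintro x ⟨hx1, _, hx3, _⟩ i
      exact (htn_ge x i).trans (htn_bound hx1 hρ hX hX₀.le hx3)
    refine ⟨hT.subset hsub, ?_⟩
    have e1 : (S.ncard : ℝ) ≤ T.ncard := by exact_mod_cast Set.ncard_le_ncard hsub hT
    have e2 : (T.ncard : ℝ) ≤ C₁ + C₂ + C₃ + T.ncard := by linarith
    have e3 : (0 : ℝ) ≤ C₁ + C₂ + C₃ + T.ncard := by positivity
    nlinarith

end Pool.Agent.H18.AT
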