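import Pool.Agent.H38.AT.Targets
import Pool.Agent.H18.AB.Base

/-!
# Admissible `n`-tuples (MP_7ecdd4_nt): common lemmas
-/

set_option autoImplicit false

open Pool.Agent.H38.AE.Statement (Admissible radical)
open Pool.Agent.H38.PS (pd)
open Pool.Agent.H38.AB (Nf Lo T_NSU)
open Pool.Agent.H38.AT

namespace Pool.Agent.H18.AT

section

variable {n : ℕ} {x : Fin n → ℤ}

theorem prn_prod (x : Fin n → ℤ) : prn x = ∏ i, (x i).natAbs := by
  unfold prn
  exact map_prod Int.natAbsHom _ _

theorem adm_ne (hx : Admissible x) (i : Fin n) : (x i).natAbs ≠ 0 :=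
  Int.natAbs_ne_zero.2 (hx.1 i)

theorem prn_ne (hx : Admissible x) : prn x ≠ 0 := by
  rw [prn_prod, Finset.prod_ne_zero_iff]
  exact fun i _ => adm_ne hx i

theorem dvd_prn (x : Fin n → ℤ) (i : Fin n) : (x i).natAbs ∣ prn x := by
  rw [prn_prod]
  exact Finset.dvd_prod_of_mem (fun i => (x i).natAbs) (Finset.mem_univ i)

theorem adm_cop (hx : Admissible x) {i j : Fin n} (hij : i ≠ j) :
    (x i).natAbs.Coprime (x j).natAbs := by
  have h := hx.2.1 i j hij
  rw [Int.isCoprime_iff_gcd_eq_one] at h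
  exact h

theorem pd_prod (hx : Admissible x) (S : Finset (Fin n)) :
    pd (∏ i ∈ S, (x i).natAbs).primeFactors = ∏ i ∈ S, pd (x i).natAbs.primeFactors := by
  classical
  induction S using Finset.induction_on with
  | empty => simp [pd]
  | insert a S ha ih =>
    rw [Finset.prod_insert ha, Finset.prod_insert ha, ← ih]
    have hc : (x a).natAbs.Coprime (∏ i ∈ S, (x i).natAbs) := by
      apply Nat.Coprime.prod_right
      intro i hi
      exact adm_cop hx (fun h => ha (h ▸ hi))
    rw [hc.primeFactors_mul]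
    unfold pd
    exact Finset.prod_union hc.disjoint_primeFactors

theorem pd_prn (hx : Admissible x) :
    pd (prn x).primeFactors = ∏ i, pd (x i).natAbs.primeFactors := by
  rw [prn_prod]
  exact pd_prod hx _

theorem mem_NfN (hNSU : T_NSU) {X : ℝ} {Ω V : ℕ} (hX : 2 ≤ X) (hx : x ∈ FwN n X Ω V)
    {d : ℕ} (hd : d ∣ prn x) : d ∈ Nf X Ω V := by
  obtain ⟨hA, h1, h2, h3⟩ := hx
  have hp := prn_ne hA
  have hd0 : d ≠ 0 := fun h => hp (by rw [h] at hd; exact Nat.eq_zero_of_zero_dvd hd)
  have hsub : d.primeFactors ⊆ (prn x).primeFactors := Nat.primeFactors_mono hd hp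
  refine (hNSU X Ω V hX).1 d hd0 ?_ ?_ ?_
  · refine le_trans ?_ h1
    exact_mod_cast Pool.Agent.H18.AB.pd_mono (fun _ h => Nat.prime_of_mem_primeFactors h) hsub
  · exact (Finset.card_le_card hsub).trans h2
  · intro p
    exact ((Nat.factorization_le_iff_dvd hd0 hp).2 hd p).trans (h3 p)

theorem prod_split {M : Type} [CommMonoid M] {i j : Fin n} (hij : i ≠ j) (f : Fin n → M) :
    ∏ l, f l = f i * f j * ∏ l ∈ Finset.univ.filter (fun l => l ≠ i ∧ l ≠ j), f l := by
  classical
  rw [← Finset.mul_prod_erase Finset.univ f (Finset.mem_univ i),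
    ← Finset.mul_prod_erase (Finset.univ.erase i) f (Finset.mem_erase.2 ⟨hij.symm,
      Finset.mem_univ j⟩), ← mul_assoc]
  congr 2
  ext l
  simp only [Finset.mem_erase, Finset.mem_filter, Finset.mem_univ, true_and, and_true]
  exact and_comm

theorem sum_split {M : Type} [AddCommMonoid M] {i j : Fin n} (hij : i ≠ j) (f : Fin n → M) :
    ∑ l, f l = f i + f j + ∑ l ∈ Finset.univ.filter (fun l => l ≠ i ∧ l ≠ j), f l := by
  classical
  rw [← Finset.add_sum_erase Finset.univ f (Finset.mem_univ i),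
    ← Finset.add_sum_erase (Finset.univ.erase i) f (Finset.mem_erase.2 ⟨hij.symm,
      Finset.mem_univ j⟩), ← add_assoc]
  congr 2
  ext l
  simp only [Finset.mem_erase, Finset.mem_filter, Finset.mem_univ, true_and, and_true]
  exact and_comm

end

end Pool.Agent.H18.AT
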