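import Pool.Agent.H83.AT.Targets

/-!
# CC: the restriction of a constructible sheaf to the complement of a closed stratum is constructible
-/

set_option autoImplicit false

open CategoryTheory CategoryTheory.Limits TopologicalSpace Topology Set Opposite

namespace Pool.Agent.H18.AT

open Pool.Agent.H83.AT Pool.Agent.H96.AL Pool.Agent.H85.AU

theorem cc (hLU : T_LU) : T_CC := by
  intro F _ X Z hZ hm N A j hA i
  by_cases hij : j ≤ i
  · refine (hLU F X (Z (i + 1) \ Z i) N A).1 _ ?_ (hA i)
    intro y hy h
    exact hy.2 (hm hij h)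
  · refine (hLU F X (Z (i + 1) \ Z i) N (cutSh (co (X := X) hZ j) A)).2.1 ?_
    intro y hy g
    refine stk_cut_eq_zero A ?_ g
    intro h
    exact h (hm (by omega : i + 1 ≤ j) hy.1)

end Pool.Agent.H18.AT
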