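import Pool.Agent.H83.AT.Targets

/-!
# CG: the graded pieces of a constructible sheaf are constructible
-/

set_option autoImplicit false

open CategoryTheory CategoryTheory.Limits TopologicalSpace Topology Set Opposite

namespace Pool.Agent.H18.AT

open Pool.Agent.H83.AT Pool.Agent.H96.AL Pool.Agent.H85.AU

/-- The map of extensions by zero is bijective on the stalks at the points of the small set. -/
theorem sm_cutMap_bij {F : Type} [Field F] {X : TopCat.{0}} {U V : Opens X} (h : U ≤ V)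
    (A : Sh F X) {x : X} (hx : x ∈ U) : Function.Bijective (sm (cutMap h (𝟙 A)) x) := by
  have h1 : ∀ g : Stk (cutSh U A) x, sm (ic V A) x (sm (cutMap h (𝟙 A)) x g) = sm (ic U A) x g := by
    intro g
    rw [← sm_comp, cutMap_ic, sm_comp, sm_id]
  have hV := sm_ic_bij A (h hx)
  have hU := sm_ic_bij A hx
  constructor
  · intro a b hab
    apply hU.1
    rw [← h1 a, ← h1 b, hab]
  · intro b
    obtain ⟨a, ha⟩ := hU.2 (sm (ic V A) x b)
    refine ⟨a, hV.1 ?_⟩
    rw [h1 a, ha]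

theorem cg (hLU : T_LU) (hLM : T_LM) (hCC : T_CC) : T_CG := by
  intro F _ X Z hZ hm N A j hA i
  have hle := co_anti (X := X) hZ hm (Nat.le_succ j)
  have hmono : Mono (cutMap hle (𝟙 A)) := by
    have h1 : cutMap hle (𝟙 A) ≫ ic _ A = ic _ A := by rw [cutMap_ic, Category.comp_id]
    exact mono_of_mono_fac h1
  have hse : (ShortComplex.mk (cutMap hle (𝟙 A)) (cokernel.π (cutMap hle (𝟙 A)))
      (cokernel.condition _)).ShortExact :=
    ShortComplex.ShortExact.mk (ShortComplex.exact_cokernel _)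
  obtain ⟨e1, e2, e3⟩ := (shortExact_iff _ _ _).1 hse
  have e0 : ∀ (x : X) (t : Stk (cutSh (co (X := X) hZ (j + 1)) A) x),
      sm (cokernel.π (cutMap hle (𝟙 A))) x (sm (cutMap hle (𝟙 A)) x t) = 0 := by
    intro x t
    rw [← sm_comp]
    have h1 : cutMap hle (𝟙 A) ≫ cokernel.π (cutMap hle (𝟙 A)) = 0 := cokernel.condition _
    rw [h1]
    obtain ⟨V, hx, s, rfl⟩ := exists_gm _ t
    rw [← gm_ap]
    exact map_zero _
  rcases lt_trichotomy i j with hij | hij | hij
  · refine (hLU F X (Z (i + 1) \ Z i) N _).2.1 ?_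
    intro y hy g
    obtain ⟨g', rfl⟩ := e2 y g
    have hy1 : y ∉ co (X := X) hZ j := fun h => h (hm (by omega : i + 1 ≤ j) hy.1)
    have h0 : g' = 0 := stk_cut_eq_zero A hy1 g'
    rw [h0, map_zero]
  · subst hij
    refine hLM F X (Z (i + 1) \ Z i) N _ _ (cokernel.π (cutMap hle (𝟙 A))) ?_
      (hCC F X Z hZ hm N A i hA i)
    intro y hy
    refine ⟨?_, e2 y⟩
    rw [← LinearMap.ker_eq_bot, LinearMap.ker_eq_bot']
    intro g hg
    obtain ⟨t, rfl⟩ := e3 y g hg
    have hy1 : y ∉ co (X := X) hZ (i + 1) := fun h => h hy.1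
    have h0 : t = 0 := stk_cut_eq_zero A hy1 t
    rw [h0, map_zero]
  · refine (hLU F X (Z (i + 1) \ Z i) N _).2.1 ?_
    intro y hy g
    obtain ⟨g', rfl⟩ := e2 y g
    have hy1 : y ∈ co (X := X) hZ (j + 1) := fun h => hy.2 (hm (by omega : j + 1 ≤ i) h)
    obtain ⟨t, rfl⟩ := (sm_cutMap_bij hle A hy1).2 g'
    exact e0 y t

end Pool.Agent.H18.AT
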