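import Pool.Agent.H18.AT.Base
import Pool.Agent.H19.AB.CLJ

/-!
# The tuples with two primes with exponents at least `2` (MP_7ecdd4_nt)
-/

set_option autoImplicit false

open Pool.Agent.H38.AE.Statement (Admissible radical)
open Pool.Agent.H38.PS (pd)
open Pool.Agent.H38.AB (Nf Lo T_NSU T_HAU)
open Pool.Agent.H38.AT
open Pool.Agent.H18.AB (sg sg_card sign_mem base_ge Lo_mul Lo_nonneg pd_pf_pos)
open Pool.Agent.H19.AB (clj_pr clj_sg clj_pd)

namespace Pool.Agent.H18.AT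

theorem nf_log {X : ℝ} {Ω V : ℕ} (hX : 2 ≤ X) {m : ℕ} (hm : m ∈ Nf X Ω V) :
    m ≠ 0 ∧ (m : ℝ) ≤ X ^ V := by
  classical
  have h0 := (Finset.mem_Icc.1 (Finset.mem_filter.1 hm).1)
  refine ⟨by have := h0.1; omega, ?_⟩
  have h2 : (m : ℝ) ≤ ((⌊X⌋₊ ^ V : ℕ) : ℝ) := by exact_mod_cast h0.2
  refine h2.trans ?_
  push_cast
  exact pow_le_pow_left₀ (Nat.cast_nonneg _) (Nat.floor_le (by linarith)) _

/-- splitting of an entry -/
theorem splitN {n : ℕ} {X : ℝ} {Ω V : ℕ} (hNSU : T_NSU) (hX : 2 ≤ X) {x : Fin n → ℤ}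
    (hx : x ∈ FwN n X Ω V) (a : Fin n) {p : ℕ} (hp : p.Prime)
    (h0 : 0 < (x a).natAbs.factorization p) :
    (x a).natAbs / p ^ (x a).natAbs.factorization p ∈ Nf X Ω V ∧
      (x a).natAbs / p ^ (x a).natAbs.factorization p * p ^ (x a).natAbs.factorization p =
        (x a).natAbs ∧ (x a).natAbs.factorization p ≤ V ∧ p ≤ ⌊X⌋₊ ∧
      pd (x a).natAbs.primeFactors =
        p * pd ((x a).natAbs / p ^ (x a).natAbs.factorization p).primeFactors := by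
  have hA := hx.1
  have hm := adm_ne hA a
  have hpm : p ∣ (x a).natAbs := Nat.dvd_of_factorization_pos h0.ne'
  have hd : (x a).natAbs / p ^ (x a).natAbs.factorization p ∣ (x a).natAbs :=
    Nat.ordCompl_dvd _ _
  refine ⟨mem_NfN hNSU hX hx (hd.trans (dvd_prn x a)), ?_, ?_, ?_, clj_pd hp hm hpm⟩
  · exact Nat.div_mul_cancel (Nat.ordProj_dvd _ _)
  · exact ((Nat.factorization_le_iff_dvd hm (prn_ne hA)).2 (dvd_prn x a) p).trans (hx.2.2.2 p)
  · refine Nat.le_floor (le_trans ?_ hx.2.1)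
    have h1 : p ∈ (prn x).primeFactors := Nat.mem_primeFactors.2
      ⟨hp, hpm.trans (dvd_prn x a), prn_ne hA⟩
    have h2 : p ≤ pd (prn x).primeFactors := by
      unfold pd
      exact Finset.single_le_prod' (f := fun q : ℕ => q)
        (fun q hq => (Nat.prime_of_mem_primeFactors hq).one_lt.le) h1
    exact_mod_cast h2

/-- the sum of the other entries -/
def oth {n : ℕ} (i j : Fin n) (s : Fin n → ℤ) (m : Fin n → ℕ) : ℤ :=
  -∑ l ∈ Finset.univ.filter (fun l => l ≠ i ∧ l ≠ j), s l * (m l : ℤ)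

theorem oth_le {n : ℕ} (i j : Fin n) {s : Fin n → ℤ} {m : Fin n → ℕ} {X : ℝ} {Ω V : ℕ}
    (hX : 2 ≤ X) (hs : ∀ l, s l ∈ sg) (hm : ∀ l, m l ∈ Nf X Ω V) (h0 : oth i j s m ≠ 0) :
    Real.log ((oth i j s m).natAbs : ℝ) ≤ Real.log n + V * Real.log X := by
  have hn : 0 < n := Fin.pos i
  have hn0 : (0 : ℝ) < n := by exact_mod_cast hn
  have hXV : (0 : ℝ) < X ^ V := by positivity
  have h1 : ((oth i j s m).natAbs : ℝ) ≤ n * X ^ V := by
    have h2 : ((oth i j s m).natAbs : ℝ) = |((oth i j s m : ℤ) : ℝ)| := by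
      rw [Nat.cast_natAbs, Int.cast_abs]
    rw [h2]
    unfold oth
    push_cast
    rw [abs_neg]
    refine (Finset.abs_sum_le_sum_abs _ _).trans ?_
    have h3 : ∀ l ∈ Finset.univ.filter (fun l => l ≠ i ∧ l ≠ j),
        |((s l : ℤ) : ℝ) * (m l : ℝ)| ≤ X ^ V := by
      intro l _
      have h4 := clj_sg (hs l) (nf_log hX (hm l)).1
      have h5 : |((s l : ℤ) : ℝ) * (m l : ℝ)| = (m l : ℝ) := by
        have h6 : |(((s l * (m l : ℤ) : ℤ)) : ℝ)| = (((s l * (m l : ℤ)).natAbs : ℕ) : ℝ) := by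
          rw [Nat.cast_natAbs, Int.cast_abs]
        rw [h4.2] at h6
        push_cast at h6
        exact h6
      rw [h5]
      exact (nf_log hX (hm l)).2
    refine (Finset.sum_le_sum h3).trans ?_
    rw [Finset.sum_const, nsmul_eq_mul]
    apply mul_le_mul_of_nonneg_right _ hXV.le
    have h4 : (Finset.univ.filter (fun l : Fin n => l ≠ i ∧ l ≠ j)).card ≤ n := by
      refine (Finset.card_le_univ _).trans ?_
      rw [Fintype.card_fin]
    exact_mod_cast h4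
  have h2 : (0 : ℝ) < ((oth i j s m).natAbs : ℝ) := by
    exact_mod_cast Int.natAbs_pos.2 h0
  have h3 := Real.log_le_log h2 h1
  rwa [Real.log_mul hn0.ne' hXV.ne', Real.log_pow] at h3

/-- reconstruction of the tuple -/
def rec' {n : ℕ} (i j : Fin n) (s : Fin n → ℤ) (m : Fin n → ℕ) (e f p r : ℕ) : Fin n → ℤ :=
  fun l => if l = i then s i * m i * (p : ℤ) ^ e else if l = j then s j * m j * (r : ℤ) ^ f else
    s l * m l

open Classical in
/-- the weights -/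
noncomputable def wt {n : ℕ} (Z κ : ℝ) (i j : Fin n) (s : Fin n → ℤ) (m : Fin n → ℕ)
    (e f p r : ℕ) : ℝ :=
  if (i ≠ j ∧ 1 < e ∧ 1 < f ∧ oth i j s m ≠ 0) ∧
      (s i * m i) * (p : ℤ) ^ e + (s j * m j) * (r : ℤ) ^ f = oth i j s m then
    Z * (∏ l, 1 / (pd (m l).primeFactors : ℝ)) * (1 / ((p : ℝ) * r) ^ κ) else 0

theorem wt_nonneg {n : ℕ} {Z κ : ℝ} (hZ : 0 ≤ Z) (i j : Fin n) (s : Fin n → ℤ) (m : Fin n → ℕ)
    (e f p r : ℕ) : 0 ≤ wt Z κ i j s m e f p r := by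
  unfold wt
  split_ifs
  · have : 0 ≤ ∏ l, 1 / (pd (m l).primeFactors : ℝ) := Finset.prod_nonneg fun _ _ => by positivity
    positivity
  · exact le_rfl

theorem pf_CJN (hNSU : T_NSU) (hHAU : T_HAU) : T_CJN := by
  classical
  intro n ε hε
  obtain ⟨ε1, hε1⟩ : ∃ ε1, ε1 = 3 * ε := ⟨_, rfl⟩
  have hε1p : 0 < ε1 := by rw [hε1]; positivity
  obtain ⟨Ch, hCh, hau⟩ := hHAU 1 ε1 le_rfl hε1p
  have hln : 0 ≤ Real.log n := Real.log_natCast_nonneg n
  obtain ⟨K', hK'⟩ : ∃ K' : ℝ, K' = (1 + 1 / ε + Real.log n) ^ (1 / ε1) := ⟨_, rfl⟩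
  have hε' : 0 < 1 / ε := by positivity
  have hK'1 : 1 ≤ K' := by
    rw [hK']
    exact Real.one_le_rpow (by linarith) (by positivity)
  have hK'e : K' ^ ε1 = 1 + 1 / ε + Real.log n := by
    rw [hK', ← Real.rpow_mul (by linarith), one_div_mul_cancel hε1p.ne', Real.rpow_one]
  have hK'p : 0 < K' ^ (10 * ε1) := Real.rpow_pos_of_pos (by linarith) _
  refine ⟨n + 2, (n : ℝ) ^ 2 * 2 ^ n * 4 * (Ch * K' ^ (10 * ε1)) + 1, by positivity, ?_⟩
  intro X Z Ω V hX hZ hV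
  have hX0 : 0 < X := by linarith
  obtain ⟨N₀, hN₀⟩ : ∃ N₀, N₀ = ⌊X⌋₊ := ⟨_, rfl⟩
  have hn1 : 1 ≤ N₀ := by
    rw [hN₀]
    exact Nat.le_floor (by push_cast; linarith)
  have hnX : (N₀ : ℝ) ≤ X := by
    rw [hN₀]
    exact Nat.floor_le hX0.le
  obtain ⟨X', hX'⟩ : ∃ X', X' = K' * X := ⟨_, rfl⟩
  have hXX' : X ≤ X' := by
    rw [hX']
    exact le_mul_of_one_le_left hX0.le hK'1
  have hX'2 : 2 ≤ X' := hX.trans hXX'
  have hlogX : 0 ≤ Real.log X := Real.log_nonneg (by linarith)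
  have hVr : (0 : ℝ) ≤ V := Nat.cast_nonneg _
  have hXe1 : 1 ≤ X ^ ε := Real.one_le_rpow (by linarith) hε.le
  have hX'e : X' ^ ε1 = (1 + 1 / ε + Real.log n) * (X ^ ε * X ^ ε * X ^ ε) := by
    rw [hX', Real.mul_rpow (by linarith) hX0.le, hK'e, ← Real.rpow_add hX0, ← Real.rpow_add hX0]
    congr 2
    rw [hε1]
    ring
  have hlogle : Real.log X ≤ 1 / ε * X ^ ε := by
    have := Real.log_le_rpow_div hX0.le hε
    rw [one_div_mul_eq_div]
    exact this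
  have hXXX : 1 ≤ X ^ ε * X ^ ε * X ^ ε := by
    have h1 : 1 ≤ X ^ ε * X ^ ε := by nlinarith
    nlinarith
  have hVX : (V : ℝ) ≤ X' ^ ε1 := by
    rw [hX'e]
    have hy0 : 0 ≤ X ^ ε := by linarith
    have h0 : X ^ ε ≤ X ^ ε * X ^ ε := le_mul_of_one_le_left hy0 hXe1
    have h1 : X ^ ε * X ^ ε ≤ X ^ ε * X ^ ε * X ^ ε :=
      le_mul_of_one_le_right (mul_nonneg hy0 hy0) hXe1
    have h2 : 0 ≤ 1 / ε * (X ^ ε * X ^ ε * X ^ ε) := by positivity
    have h3 : 0 ≤ Real.log n * (X ^ ε * X ^ ε * X ^ ε) := by positivity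
    linarith
  have hVL : Real.log n + (V : ℝ) * Real.log X ≤ X' ^ ε1 := by
    rw [hX'e]
    have h1 : (V : ℝ) * Real.log X ≤ X ^ ε * (1 / ε * X ^ ε) :=
      mul_le_mul hV hlogle hlogX (by positivity)
    have h2 : X ^ ε * (1 / ε * X ^ ε) ≤ 1 / ε * (X ^ ε * X ^ ε * X ^ ε) := by
      have : X ^ ε * (1 / ε * X ^ ε) = 1 / ε * (X ^ ε * X ^ ε) := by ring
      rw [this]
      exact mul_le_mul_of_nonneg_left (le_mul_of_one_le_right (by positivity) hXe1) hε'.le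
    have h3 : Real.log n ≤ Real.log n * (X ^ ε * X ^ ε * X ^ ε) :=
      le_mul_of_one_le_right hln hXXX
    have h4 : 0 ≤ X ^ ε * X ^ ε * X ^ ε := by positivity
    linarith
  have hVL' : (V : ℝ) * Real.log X ≤ X' ^ ε1 := by linarith
  obtain ⟨l, hl⟩ : ∃ l, l = Nat.log 2 N₀ := ⟨_, rfl⟩
  have hlLo : (((V : ℝ) + 1) * ((l : ℝ) + 1)) ^ 2 ≤ Lo 2 X Ω V := by
    have hb := base_ge V hX
    have h1 : (l : ℝ) * Real.log 2 ≤ Real.log X := by
      rw [← Real.log_pow]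
      refine Real.log_le_log (by positivity) (le_trans ?_ hnX)
      have h2 : 2 ^ l ≤ N₀ := by
        rw [hl]
        exact Nat.pow_log_le_self 2 (by omega)
      exact_mod_cast h2
    have h2 := Real.log_two_gt_d9
    have h3 : (0 : ℝ) ≤ l := Nat.cast_nonneg _
    have h4 : (l : ℝ) + 1 ≤ 4 * Real.log X + 4 := by nlinarith
    have h5 : ((V : ℝ) + 1) * ((l : ℝ) + 1) ≤ ((V : ℝ) + 2) * (4 * Real.log X + 4) :=
      mul_le_mul (by linarith) h4 (by positivity) (by positivity)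
    unfold Lo
    calc (((V : ℝ) + 1) * ((l : ℝ) + 1)) ^ 2 ≤ (((V : ℝ) + 2) * (4 * Real.log X + 4)) ^ 2 :=
          pow_le_pow_left₀ (by positivity) h5 2
      _ ≤ _ := pow_le_pow_right₀ (by linarith) (by omega)
  obtain ⟨κ, hκ⟩ : ∃ κ : ℝ, κ = 4 / (3 * (((1 : ℕ) : ℝ) + 3)) := ⟨_, rfl⟩
  have hκ3 : κ = 1 / 3 := by rw [hκ]; norm_num
  obtain ⟨N, hN⟩ : ∃ N, N = Nf X Ω V := ⟨_, rfl⟩
  obtain ⟨EF, hEF⟩ : ∃ EF : Finset (ℕ × ℕ), EF = Finset.range (V + 1) ×ˢ Finset.range (V + 1) :=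
    ⟨_, rfl⟩
  obtain ⟨PR, hPR⟩ : ∃ PR : Finset (ℕ × ℕ), PR = Finset.Icc 1 N₀ ×ˢ Finset.Icc 1 N₀ := ⟨_, rfl⟩
  obtain ⟨SS, hSS⟩ : ∃ SS : Finset (Fin n → ℤ), SS = Fintype.piFinset fun _ => sg := ⟨_, rfl⟩
  obtain ⟨MM, hMM⟩ : ∃ MM : Finset (Fin n → ℕ), MM = Fintype.piFinset fun _ => N := ⟨_, rfl⟩
  obtain ⟨G, hG⟩ : ∃ G : ℝ, G = ((l : ℝ) + 1) ^ 2 * (4 * (Ch * X' ^ (10 * ε1))) := ⟨_, rfl⟩
  have hX'0 : 0 < X' := by linarith
  have hG0 : 0 ≤ G := by rw [hG]; positivity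
  have hprod0 : ∀ m : Fin n → ℕ, 0 ≤ ∏ l, 1 / (pd (m l).primeFactors : ℝ) := fun m =>
    Finset.prod_nonneg fun _ _ => by positivity
  -- the sum over the two primes
  have hin : ∀ i j : Fin n, ∀ s ∈ SS, ∀ m ∈ MM, ∀ t ∈ EF,
      ∑ q ∈ PR, wt Z κ i j s m t.1 t.2 q.1 q.2 ≤
        Z * (∏ l, 1 / (pd (m l).primeFactors : ℝ)) * G := by
    intro i j s hs m hm t ht
    rw [hSS, Fintype.mem_piFinset] at hs
    rw [hMM, Fintype.mem_piFinset] at hm
    rw [hEF, Finset.mem_product, Finset.mem_range, Finset.mem_range] at ht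
    have hmN : ∀ l, m l ∈ Nf X Ω V := fun l => by
      have := hm l
      rwa [hN] at this
    by_cases hD' : i ≠ j ∧ 1 < t.1 ∧ 1 < t.2 ∧ oth i j s m ≠ 0
    · have hlog : ∀ k : Fin n, Real.log (m k) ≤ V * Real.log X := by
        intro k
        rw [← Real.log_pow]
        refine Real.log_le_log ?_ (nf_log hX (hmN k)).2
        exact_mod_cast Nat.pos_of_ne_zero (nf_log hX (hmN k)).1
      obtain ⟨sa, sa'⟩ := clj_sg (hs i) (nf_log hX (hmN i)).1
      obtain ⟨sb, sb'⟩ := clj_sg (hs j) (nf_log hX (hmN j)).1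
      have ht1 : (t.1 : ℝ) ≤ X' ^ ε1 := by
        have h1 : (t.1 : ℝ) ≤ V := by exact_mod_cast Nat.lt_succ_iff.1 ht.1
        linarith
      have ht2 : (t.2 : ℝ) ≤ X' ^ ε1 := by
        have h1 : (t.2 : ℝ) ≤ V := by exact_mod_cast Nat.lt_succ_iff.1 ht.2
        linarith
      have h1 := clj_pr 1 hCh hau hX'2 hn1 (hnX.trans hXX') hD'.2.1 hD'.2.2.1 ht1 ht2 sa sb
        hD'.2.2.2 (by rw [sa']; exact (hlog i).trans hVL') (by rw [sb']; exact (hlog j).trans hVL')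
        ((oth_le i j hX hs hmN hD'.2.2.2).trans hVL)
      rw [← hκ, ← hl, ← hG, ← hPR] at h1
      have hw : ∀ q ∈ PR, wt Z κ i j s m t.1 t.2 q.1 q.2 =
          if (s i * m i) * (q.1 : ℤ) ^ t.1 + (s j * m j) * (q.2 : ℤ) ^ t.2 = oth i j s m then
            Z * (∏ l, 1 / (pd (m l).primeFactors : ℝ)) * (1 / ((q.1 : ℝ) * q.2) ^ κ) else 0 := by
        intro q _
        unfold wt
        by_cases hq : (s i * m i) * (q.1 : ℤ) ^ t.1 + (s j * m j) * (q.2 : ℤ) ^ t.2 = oth i j s m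
        · rw [if_pos ⟨hD', hq⟩, if_pos hq]
        · rw [if_neg (fun h => hq h.2), if_neg hq]
      rw [Finset.sum_congr rfl hw, ← Finset.sum_filter, ← Finset.mul_sum]
      exact mul_le_mul_of_nonneg_left h1 (mul_nonneg hZ (hprod0 m))
    · have h1 : ∑ q ∈ PR, wt Z κ i j s m t.1 t.2 q.1 q.2 = 0 := by
        refine Finset.sum_eq_zero fun q _ => ?_
        unfold wt
        rw [if_neg (fun h => hD' h.1)]
      rw [h1]
      exact mul_nonneg (mul_nonneg hZ (hprod0 m)) hG0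
  have hS := (hNSU X Ω V hX).2
  rw [← hN] at hS
  have hS0 : 0 ≤ ∑ m ∈ N, 1 / (pd m.primeFactors : ℝ) := Finset.sum_nonneg fun _ _ => by positivity
  have hL10 : 0 ≤ Lo 1 X Ω V := Lo_nonneg 1 Ω V hX
  have hLon : ∀ k : ℕ, (Lo 1 X Ω V) ^ k = Lo k X Ω V := by
    intro k
    induction k with
    | zero => unfold Lo; simp
    | succ k ih => rw [pow_succ, ih, Lo_mul]
  have hMs : ∑ m ∈ MM, ∏ l, 1 / (pd (m l).primeFactors : ℝ) ≤ Lo n X Ω V := by
    rw [hMM, ← Finset.prod_univ_sum (fun _ : Fin n => N)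
      (fun _ m => 1 / (pd m.primeFactors : ℝ)), Finset.prod_const, Finset.card_univ,
      Fintype.card_fin, ← hLon n]
    exact pow_le_pow_left₀ hS0 hS n
  have hSSc : (SS.card : ℝ) = 2 ^ n := by
    rw [hSS, Fintype.card_piFinset]
    simp [sg_card]
  -- the whole sum
  have hsum : ∑ y ∈ ((Finset.univ : Finset (Fin n)) ×ˢ (Finset.univ : Finset (Fin n))) ×ˢ
      (SS ×ˢ (MM ×ˢ (EF ×ˢ PR))),
      wt Z κ y.1.1 y.1.2 y.2.1 y.2.2.1 y.2.2.2.1.1 y.2.2.2.1.2 y.2.2.2.2.1 y.2.2.2.2.2 ≤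
      ((n : ℝ) ^ 2 * 2 ^ n * 4 * (Ch * K' ^ (10 * ε1)) + 1) * Z * X ^ (100 * ε) *
        Lo (n + 2) X Ω V := by
    have hij : ∀ i j : Fin n, ∀ s ∈ SS, ∑ y ∈ MM ×ˢ (EF ×ˢ PR),
        wt Z κ i j s y.1 y.2.1.1 y.2.1.2 y.2.2.1 y.2.2.2 ≤
        ((V : ℝ) + 1) ^ 2 * (Z * Lo n X Ω V * G) := by
      intro i j s hs
      rw [Finset.sum_product]
      have h2 : ∀ m ∈ MM, ∑ y ∈ EF ×ˢ PR, wt Z κ i j s m y.1.1 y.1.2 y.2.1 y.2.2 ≤
          (((V : ℝ) + 1) ^ 2 * (Z * G)) * ∏ l, 1 / (pd (m l).primeFactors : ℝ) := by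
        intro m hm
        rw [Finset.sum_product]
        refine (Finset.sum_le_sum fun t ht => hin i j s hs m hm t ht).trans (le_of_eq ?_)
        rw [Finset.sum_const, hEF, Finset.card_product, Finset.card_range, nsmul_eq_mul]
        push_cast
        ring
      refine (Finset.sum_le_sum h2).trans ?_
      rw [← Finset.mul_sum]
      calc _ ≤ (((V : ℝ) + 1) ^ 2 * (Z * G)) * Lo n X Ω V :=
            mul_le_mul_of_nonneg_left hMs (by positivity)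
        _ = _ := by ring
    have hall : ∑ y ∈ ((Finset.univ : Finset (Fin n)) ×ˢ (Finset.univ : Finset (Fin n))) ×ˢ
        (SS ×ˢ (MM ×ˢ (EF ×ˢ PR))),
        wt Z κ y.1.1 y.1.2 y.2.1 y.2.2.1 y.2.2.2.1.1 y.2.2.2.1.2 y.2.2.2.2.1 y.2.2.2.2.2 ≤
        (n : ℝ) ^ 2 * (2 ^ n * (((V : ℝ) + 1) ^ 2 * (Z * Lo n X Ω V * G))) := by
      rw [Finset.sum_product]
      have h3 : ∀ ij ∈ (Finset.univ : Finset (Fin n)) ×ˢ (Finset.univ : Finset (Fin n)),
          ∑ y ∈ SS ×ˢ (MM ×ˢ (EF ×ˢ PR)),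
          wt Z κ ij.1 ij.2 y.1 y.2.1 y.2.2.1.1 y.2.2.1.2 y.2.2.2.1 y.2.2.2.2 ≤
          2 ^ n * (((V : ℝ) + 1) ^ 2 * (Z * Lo n X Ω V * G)) := by
        intro ij _
        rw [Finset.sum_product]
        refine (Finset.sum_le_sum fun s hs => hij ij.1 ij.2 s hs).trans (le_of_eq ?_)
        rw [Finset.sum_const, nsmul_eq_mul, hSSc]
      refine (Finset.sum_le_sum h3).trans (le_of_eq ?_)
      rw [Finset.sum_const, nsmul_eq_mul, Finset.card_product, Finset.card_univ,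
        Fintype.card_fin]
      push_cast
      ring
    refine hall.trans ?_
    have h2 : Lo n X Ω V * (((V : ℝ) + 1) * ((l : ℝ) + 1)) ^ 2 ≤ Lo (n + 2) X Ω V := by
      rw [← Lo_mul n 2]
      exact mul_le_mul_of_nonneg_left hlLo (Lo_nonneg n Ω V hX)
    have h3 : X ^ (10 * ε1) ≤ X ^ (100 * ε) :=
      Real.rpow_le_rpow_of_exponent_le (by linarith) (by rw [hε1]; linarith)
    have h4 : X' ^ (10 * ε1) = K' ^ (10 * ε1) * X ^ (10 * ε1) := by
      rw [hX', Real.mul_rpow (by linarith) hX0.le]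
    have hLn2 : 0 ≤ Lo (n + 2) X Ω V := Lo_nonneg (n + 2) Ω V hX
    have hXp : 0 ≤ X ^ (100 * ε) := Real.rpow_nonneg hX0.le _
    calc (n : ℝ) ^ 2 * (2 ^ n * (((V : ℝ) + 1) ^ 2 * (Z * Lo n X Ω V * G)))
        = (n : ℝ) ^ 2 * 2 ^ n * 4 * (Ch * X' ^ (10 * ε1)) * Z *
          (Lo n X Ω V * (((V : ℝ) + 1) * ((l : ℝ) + 1)) ^ 2) := by
          rw [hG]; ring
      _ ≤ (n : ℝ) ^ 2 * 2 ^ n * 4 * (Ch * X' ^ (10 * ε1)) * Z * Lo (n + 2) X Ω V :=
          mul_le_mul_of_nonneg_left h2 (by positivity)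
      _ = (n : ℝ) ^ 2 * 2 ^ n * 4 * (Ch * K' ^ (10 * ε1)) * Z * Lo (n + 2) X Ω V *
          X ^ (10 * ε1) := by
          rw [h4]; ring
      _ ≤ (n : ℝ) ^ 2 * 2 ^ n * 4 * (Ch * K' ^ (10 * ε1)) * Z * Lo (n + 2) X Ω V *
          X ^ (100 * ε) :=
          mul_le_mul_of_nonneg_left h3 (by positivity)
      _ ≤ _ := by
          have h5 : 0 ≤ 1 * Z * X ^ (100 * ε) * Lo (n + 2) X Ω V := by positivity
          linarith
  have hc := Pool.Agent.H18.AB.count {x | x ∈ FwN n X Ω V ∧ PJN Z x}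
    (((Finset.univ : Finset (Fin n)) ×ˢ (Finset.univ : Finset (Fin n))) ×ˢ
      (SS ×ˢ (MM ×ˢ (EF ×ˢ PR))))
    (fun y => rec' y.1.1 y.1.2 y.2.1 y.2.2.1 y.2.2.2.1.1 y.2.2.2.1.2 y.2.2.2.2.1 y.2.2.2.2.2)
    (fun y => wt Z κ y.1.1 y.1.2 y.2.1 y.2.2.1 y.2.2.2.1.1 y.2.2.2.1.2 y.2.2.2.2.1 y.2.2.2.2.2)
    (fun y _ => wt_nonneg hZ _ _ _ _ _ _ _ _) ?_
  · exact ⟨hc.1, hc.2.trans hsum⟩
  rintro x ⟨hxF, i, j, p, r, hij, hp, hr, hDa, hDb, hZx⟩
  have hA := hxF.1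
  obtain ⟨a1, a2, a3, a4, a5⟩ := splitN hNSU hX hxF i hp (by omega)
  obtain ⟨b1, b2, b3, b4, b5⟩ := splitN hNSU hX hxF j hr (by omega)
  obtain ⟨e, he⟩ : ∃ e, e = (x i).natAbs.factorization p := ⟨_, rfl⟩
  obtain ⟨f, hf⟩ : ∃ f, f = (x j).natAbs.factorization r := ⟨_, rfl⟩
  obtain ⟨A, hAe⟩ : ∃ A, A = (x i).natAbs / p ^ e := ⟨_, rfl⟩
  obtain ⟨B, hBe⟩ : ∃ B, B = (x j).natAbs / r ^ f := ⟨_, rfl⟩
  rw [← he, ← hAe] at a1 a2 a5
  rw [← he] at a3 hDa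
  rw [← hf, ← hBe] at b1 b2 b5
  rw [← hf] at b3 hDb
  rw [← hN₀] at a4 b4
  obtain ⟨m, hm⟩ : ∃ m : Fin n → ℕ, m = fun l => if l = i then A else if l = j then B else
    (x l).natAbs := ⟨_, rfl⟩
  have hmi : m i = A := by rw [hm]; simp
  have hmj : m j = B := by rw [hm]; simp [hij.symm]
  have hml : ∀ l, l ≠ i → l ≠ j → m l = (x l).natAbs := by
    intro l h1 h2
    rw [hm]
    simp [h1, h2]
  have e1 : (x i).sign * (A : ℤ) * (p : ℤ) ^ e = x i := by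
    have h1 : (A : ℤ) * (p : ℤ) ^ e = ((x i).natAbs : ℤ) := by exact_mod_cast a2
    rw [mul_assoc, h1, Int.sign_mul_natAbs]
  have e2 : (x j).sign * (B : ℤ) * (r : ℤ) ^ f = x j := by
    have h1 : (B : ℤ) * (r : ℤ) ^ f = ((x j).natAbs : ℤ) := by exact_mod_cast b2
    rw [mul_assoc, h1, Int.sign_mul_natAbs]
  have hoth : oth i j (fun l => (x l).sign) m =
      -∑ l ∈ Finset.univ.filter (fun l => l ≠ i ∧ l ≠ j), x l := by
    unfold oth
    congr 1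
    refine Finset.sum_congr rfl fun l hl => ?_
    rw [Finset.mem_filter] at hl
    rw [hml l hl.2.1 hl.2.2, Int.sign_mul_natAbs]
  have hsum0 : x i + x j + ∑ l ∈ Finset.univ.filter (fun l => l ≠ i ∧ l ≠ j), x l = 0 := by
    rw [← sum_split hij x]
    exact hA.2.2
  have hoth' : oth i j (fun l => (x l).sign) m = x i + x j := by
    rw [hoth]
    linarith
  refine ⟨((i, j), ((fun l => (x l).sign), (m, ((e, f), (p, r))))), ?_, ?_, ?_⟩
  · simp only [Finset.mem_product, Finset.mem_univ, true_and]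
    refine ⟨?_, ?_, ?_, ?_⟩
    · rw [hSS, Fintype.mem_piFinset]
      exact fun l => sign_mem (hA.1 l)
    · rw [hMM, Fintype.mem_piFinset, hN]
      intro l
      by_cases h1 : l = i
      · rw [h1, hmi]
        exact a1
      · by_cases h2 : l = j
        · rw [h2, hmj]
          exact b1
        · rw [hml l h1 h2]
          exact mem_NfN hNSU hX hxF (dvd_prn x l)
    · rw [hEF, Finset.mem_product, Finset.mem_range, Finset.mem_range]
      exact ⟨Nat.lt_succ_of_le a3, Nat.lt_succ_of_le b3⟩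
    · rw [hPR, Finset.mem_product, Finset.mem_Icc, Finset.mem_Icc]
      exact ⟨⟨hp.one_lt.le, a4⟩, hr.one_lt.le, b4⟩
  · show 1 ≤ wt Z κ i j (fun l => (x l).sign) m e f p r
    have hne : oth i j (fun l => (x l).sign) m ≠ 0 := by
      rw [hoth']
      intro h0
      have hxj : x j = -x i := by linarith
      have hcop := hA.2.1 i j hij
      rw [hxj] at hcop
      have hu : IsUnit (x i) := isCoprime_self.1 ((IsCoprime.neg_right_iff _ _).1 hcop)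
      have h1 : (x i).natAbs = 1 := Int.isUnit_iff_natAbs_eq.1 hu
      rw [h1, Nat.factorization_one] at he
      simp only [Finsupp.coe_zero, Pi.zero_apply] at he
      omega
    unfold wt
    rw [if_pos ⟨⟨hij, hDa, hDb, hne⟩, by rw [hmi, hmj, hoth', e1, e2]⟩]
    have hpd : pd (prn x).primeFactors = p * r * ∏ l, pd (m l).primeFactors := by
      rw [pd_prn hA, prod_split hij, prod_split hij (fun l => pd (m l).primeFactors), a5, b5,
        hmi, hmj]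
      have h1 : ∏ l ∈ Finset.univ.filter (fun l => l ≠ i ∧ l ≠ j), pd (m l).primeFactors =
          ∏ l ∈ Finset.univ.filter (fun l => l ≠ i ∧ l ≠ j), pd (x l).natAbs.primeFactors := by
        refine Finset.prod_congr rfl fun l hl => ?_
        rw [Finset.mem_filter] at hl
        rw [hml l hl.2.1 hl.2.2]
      rw [h1]
      ring
    rw [hpd, ← hκ3] at hZx
    have hp0 : (0 : ℝ) < p := by exact_mod_cast hp.pos
    have hr0 : (0 : ℝ) < r := by exact_mod_cast hr.pos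
    have hP0 : (0 : ℝ) < ∏ l, (pd (m l).primeFactors : ℝ) :=
      Finset.prod_pos fun l _ => by exact_mod_cast pd_pf_pos _
    have hq : (0 : ℝ) < ((p : ℝ) * r) ^ κ := Real.rpow_pos_of_pos (by positivity) _
    push_cast at hZx
    have h4 : (∏ l, (pd (m l).primeFactors : ℝ)) * ((p : ℝ) * r) ^ κ ≤ Z := by
      have h5 : ((∏ l, (pd (m l).primeFactors : ℝ)) * ((p : ℝ) * r) ^ κ) * ((p : ℝ) * r) ≤
          Z * ((p : ℝ) * r) := by
        refine le_trans (le_of_eq ?_) hZx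
        ring
      exact le_of_mul_le_mul_right h5 (by positivity)
    have h6 : ∏ l, 1 / (pd (m l).primeFactors : ℝ) = 1 / ∏ l, (pd (m l).primeFactors : ℝ) := by
      rw [Finset.prod_div_distrib, Finset.prod_const_one]
    rw [h6, mul_assoc, one_div_mul_one_div, mul_one_div, one_le_div₀ (by positivity)]
    exact h4
  · show rec' i j (fun l => (x l).sign) m e f p r = x
    funext l
    unfold rec'
    split_ifs with h1 h2
    · rw [h1, hmi]
      exact e1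
    · rw [h2, hmj]
      exact e2
    · rw [hml l h1 h2]
      exact Int.sign_mul_natAbs _

end Pool.Agent.H18.AT
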