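import Pool.Agent.H18.AT.Base
import Pool.Agent.H18.AT.ALN

/-!
# The lower bound for the number of admissible tuples with small radical (MP_7ecdd4_nt)
-/

set_option autoImplicit false

open Finset
open Pool.Agent.H38.AE.Statement (Admissible radical)
open Pool.Agent.H38.PS (pd)
open Pool.Agent.H38.AT

namespace Pool.Agent.H18.AT

/-- a set of numbers below `L` which are congruent modulo `p` -/
theorem card_class {p L : ℕ} (_hp : 0 < p) (S : Finset ℕ) (hL : ∀ t ∈ S, t < L)
    (hc : ∀ t ∈ S, ∀ t' ∈ S, t ≡ t' [MOD p]) : S.card ≤ L / p + 1 := by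
  have h1 : S.card ≤ (range (L / p + 1)).card := by
    refine Finset.card_le_card_of_injOn (fun t => t / p) ?_ ?_
    · intro t ht
      rw [Finset.mem_coe, Finset.mem_range]
      have := Nat.div_le_div_right (c := p) (hL t ht).le
      show t / p < L / p + 1
      omega
    · intro t ht t' ht' h
      have h2 : t % p = t' % p := hc t ht t' ht'
      have h3 : t / p = t' / p := h
      rw [← Nat.div_add_mod t p, ← Nat.div_add_mod t' p, h2, h3]
  rwa [Finset.card_range] at h1

/-- the solutions of a linear congruence -/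
theorem card_lin {p W L : ℕ} (hp : p.Prime) (hW : ¬ p ∣ W) (a : ℕ) :
    ((range L).filter fun t => p ∣ a + W * t).card ≤ L / p + 1 := by
  apply card_class hp.pos
  · intro t ht
    rw [Finset.mem_filter, Finset.mem_range] at ht
    exact ht.1
  · intro t ht t' ht'
    rw [Finset.mem_filter] at ht ht'
    have h1 : a + W * t ≡ a + W * t' [MOD p] :=
      ((Nat.modEq_zero_iff_dvd).2 ht.2).trans ((Nat.modEq_zero_iff_dvd).2 ht'.2).symm
    have h2 : W * t ≡ W * t' [MOD p] := Nat.ModEq.add_left_cancel' a h1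
    exact Nat.ModEq.cancel_left_of_coprime ((Nat.Prime.coprime_iff_not_dvd hp).2 hW) h2

/-- the box -/
def bx (k L : ℕ) : Finset (Fin k → ℕ) := Fintype.piFinset fun _ => range L

theorem mem_bx {k L : ℕ} {y : Fin k → ℕ} : y ∈ bx k L ↔ ∀ i, y i < L := by
  unfold bx
  rw [Fintype.mem_piFinset]
  simp only [Finset.mem_range]

theorem card_bx (k L : ℕ) : (bx k L).card = L ^ k := by
  unfold bx
  rw [Fintype.card_piFinset]
  simp

/-- counting with two special coordinates -/
theorem card_two {k L M : ℕ} {i l : Fin k} (hil : i ≠ l) (P : (Fin k → ℕ) → Prop)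
    [DecidablePred P] (R : Finset ℕ) (hR : R.card ≤ M)
    (h1 : ∀ y ∈ bx k L, P y → y i ∈ R)
    (h2 : ∀ y ∈ bx k L, ((range L).filter fun t => P (Function.update y l t)).card ≤ M) :
    ((bx k L).filter P).card ≤ M * M * L ^ (k - 2) := by
  classical
  set f : (Fin k → ℕ) → (Fin k → ℕ) := fun y => Function.update (Function.update y i 0) l 0
    with hf
  have himg : ((bx k L).filter P).image f ⊆
      Fintype.piFinset (fun j : Fin k => if j = i ∨ j = l then ({0} : Finset ℕ) else range L) := by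
    intro z hz
    rw [Finset.mem_image] at hz
    obtain ⟨y, hy, rfl⟩ := hz
    rw [Finset.mem_filter, mem_bx] at hy
    rw [Fintype.mem_piFinset]
    intro j
    by_cases hj : j = i ∨ j = l
    · rw [if_pos hj, Finset.mem_singleton, hf]
      rcases hj with rfl | rfl
      · show Function.update (Function.update y j 0) l 0 j = 0
        rw [Function.update_of_ne hil, Function.update_self]
      · show Function.update (Function.update y i 0) j 0 j = 0
        rw [Function.update_self]
    · rw [if_neg hj, Finset.mem_range, hf]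
      push Not at hj
      show Function.update (Function.update y i 0) l 0 j < L
      rw [Function.update_of_ne hj.2, Function.update_of_ne hj.1]
      exact hy.1 j
  have hcard : (Fintype.piFinset (fun j : Fin k => if j = i ∨ j = l then ({0} : Finset ℕ)
      else range L)).card = L ^ (k - 2) := by
    rw [Fintype.card_piFinset]
    have h3 : ∀ j : Fin k, (if j = i ∨ j = l then ({0} : Finset ℕ) else range L).card =
        if j = i ∨ j = l then 1 else L := by
      intro j
      split_ifs
      · rfl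
      · exact Finset.card_range L
    rw [Finset.prod_congr rfl fun j _ => h3 j, prod_split hil, if_pos (Or.inl rfl),
      if_pos (Or.inr rfl), one_mul, one_mul]
    have h4 : ∀ j ∈ Finset.univ.filter (fun j : Fin k => j ≠ i ∧ j ≠ l),
        (if j = i ∨ j = l then 1 else L) = L := by
      intro j hj
      rw [Finset.mem_filter] at hj
      rw [if_neg]
      rintro (h | h)
      · exact hj.2.1 h
      · exact hj.2.2 h
    rw [Finset.prod_congr rfl h4, Finset.prod_const]
    congr 1
    have h5 : Finset.univ.filter (fun j : Fin k => j ≠ i ∧ j ≠ l) =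
        (Finset.univ.erase i).erase l := by
      ext j
      simp only [Finset.mem_erase, Finset.mem_filter, Finset.mem_univ, true_and, and_true]
      exact and_comm
    rw [h5, Finset.card_erase_of_mem (Finset.mem_erase.2 ⟨hil.symm, Finset.mem_univ l⟩),
      Finset.card_erase_of_mem (Finset.mem_univ i), Finset.card_univ, Fintype.card_fin]
    omega
  have hfib : ∀ z ∈ ((bx k L).filter P).image f,
      (((bx k L).filter P).filter fun y => f y = z).card ≤ M * M := by
    intro z hz
    rw [Finset.mem_image] at hz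
    obtain ⟨y₀, hy₀, rfl⟩ := hz
    -- the pairs of the two coordinates
    have hy₀' := (Finset.mem_filter.1 hy₀).1
    have key : (((bx k L).filter P).filter fun y => f y = f y₀).card ≤
        (R.sigma fun s => (range L).filter fun t =>
          P (Function.update (Function.update y₀ i s) l t) ∧ s < L).card := by
      refine Finset.card_le_card_of_injOn (fun y => (⟨y i, y l⟩ : Σ _ : ℕ, ℕ)) ?_ ?_
      · intro y hy
        rw [Finset.mem_coe, Finset.mem_filter, Finset.mem_filter] at hy
        obtain ⟨⟨hy1, hy2⟩, hy3⟩ := hy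
        rw [Finset.mem_coe, Finset.mem_sigma]
        refine ⟨h1 y hy1 hy2, ?_⟩
        rw [Finset.mem_filter, Finset.mem_range]
        refine ⟨mem_bx.1 hy1 l, ?_, mem_bx.1 hy1 i⟩
        have h3 : Function.update (Function.update y₀ i (y i)) l (y l) = y := by
          funext j
          by_cases hjl : j = l
          · rw [hjl, Function.update_self]
          · rw [Function.update_of_ne hjl]
            by_cases hji : j = i
            · rw [hji, Function.update_self]
            · rw [Function.update_of_ne hji]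
              have h4 := congrFun hy3 j
              simp only [hf] at h4
              rw [Function.update_of_ne hjl, Function.update_of_ne hji,
                Function.update_of_ne hjl, Function.update_of_ne hji] at h4
              exact h4.symm
        show P (Function.update (Function.update y₀ i (y i)) l (y l))
        rw [h3]
        exact hy2
      · intro y hy y' hy' h
        rw [Finset.mem_coe, Finset.mem_filter] at hy hy'
        have h3 : y i = y' i := (Sigma.mk.inj_iff.1 h).1
        have h4 : y l = y' l := eq_of_heq (Sigma.mk.inj_iff.1 h).2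
        have h5 := hy.2.trans hy'.2.symm
        funext j
        by_cases hjl : j = l
        · rw [hjl, h4]
        · by_cases hji : j = i
          · rw [hji, h3]
          · have h6 := congrFun h5 j
            simp only [hf] at h6
            rw [Function.update_of_ne hjl, Function.update_of_ne hji,
              Function.update_of_ne hjl, Function.update_of_ne hji] at h6
            exact h6
    refine key.trans ?_
    rw [Finset.card_sigma]
    calc ∑ s ∈ R, ((range L).filter fun t =>
          P (Function.update (Function.update y₀ i s) l t) ∧ s < L).card ≤ ∑ _s ∈ R, M := by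
          refine Finset.sum_le_sum fun s _ => ?_
          by_cases hs : s < L
          · have h3 : Function.update y₀ i s ∈ bx k L := by
              rw [mem_bx]
              intro j
              by_cases hji : j = i
              · rw [hji, Function.update_self]
                exact hs
              · rw [Function.update_of_ne hji]
                exact mem_bx.1 hy₀' j
            refine (Finset.card_le_card ?_).trans (h2 _ h3)
            intro t ht
            rw [Finset.mem_filter] at ht ⊢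
            exact ⟨ht.1, ht.2.1⟩
          · have h3 : ((range L).filter fun t =>
                P (Function.update (Function.update y₀ i s) l t) ∧ s < L) = ∅ := by
              rw [Finset.filter_eq_empty_iff]
              intro t _ h4
              exact hs h4.2
            rw [h3, Finset.card_empty]
            exact Nat.zero_le _
      _ = R.card * M := by rw [Finset.sum_const, smul_eq_mul]
      _ ≤ M * M := Nat.mul_le_mul_right M hR
  calc ((bx k L).filter P).card ≤ M * M * (((bx k L).filter P).image f).card :=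
        Finset.card_le_mul_card_image _ _ hfib
    _ ≤ M * M * L ^ (k - 2) := by
        refine Nat.mul_le_mul_left _ ?_
        rw [← hcard]
        exact Finset.card_le_card himg

/-- the tuples -/
def sS {k : ℕ} (W : ℕ) (y : Fin k → ℕ) : ℕ := ∑ i, (1 + W * y i)

def xx {k : ℕ} (W : ℕ) (y : Fin k → ℕ) : Fin (k + 1) → ℤ :=
  Fin.cons (-(sS W y : ℤ)) fun i => ((1 + W * y i : ℕ) : ℤ)

theorem xx_zero {k : ℕ} (W : ℕ) (y : Fin k → ℕ) : xx W y 0 = -(sS W y : ℤ) := rfl

theorem xx_succ {k : ℕ} (W : ℕ) (y : Fin k → ℕ) (i : Fin k) :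
    xx W y i.succ = ((1 + W * y i : ℕ) : ℤ) := rfl

theorem xx_inj {k W : ℕ} (hW : 0 < W) : Function.Injective (xx (k := k) W) := by
  intro y y' h
  funext i
  have h1 := congrFun h i.succ
  rw [xx_succ, xx_succ] at h1
  have h2 : 1 + W * y i = 1 + W * y' i := by exact_mod_cast h1
  exact Nat.eq_of_mul_eq_mul_left hW (Nat.add_left_cancel h2)

theorem sS_pos {k W : ℕ} (hk : 0 < k) (y : Fin k → ℕ) : 0 < sS W y := by
  unfold sS
  have : Nonempty (Fin k) := ⟨⟨0, hk⟩⟩
  exact Finset.sum_pos (fun i _ => by omega) Finset.univ_nonempty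

/-- the bad points of the box -/
def Bd (k W : ℕ) (y : Fin k → ℕ) : Prop :=
  ∃ i l : Fin k, i ≠ l ∧ ∃ p : ℕ, p.Prime ∧ p ∣ 1 + W * y i ∧ (p ∣ 1 + W * y l ∨ p ∣ sS W y)

theorem adm_xx {k W : ℕ} (hk : 2 ≤ k) {y : Fin k → ℕ} (hy : ¬ Bd k W y) : Admissible (xx W y) := by
  have hcop : ∀ i : Fin k, Nat.Coprime (1 + W * y i) (sS W y) := by
    intro i
    by_contra h
    rw [Nat.Prime.not_coprime_iff_dvd] at h
    obtain ⟨p, hp, h1, h2⟩ := h
    have : Nontrivial (Fin k) := Fin.nontrivial_iff_two_le.2 hk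
    obtain ⟨l, hl⟩ := exists_ne i
    exact hy ⟨i, l, hl.symm, p, hp, h1, Or.inr h2⟩
  have hcop2 : ∀ i l : Fin k, i ≠ l → Nat.Coprime (1 + W * y i) (1 + W * y l) := by
    intro i l hil
    by_contra h
    rw [Nat.Prime.not_coprime_iff_dvd] at h
    obtain ⟨p, hp, h1, h2⟩ := h
    exact hy ⟨i, l, hil, p, hp, h1, Or.inl h2⟩
  refine ⟨?_, ?_, ?_⟩
  · intro i
    refine Fin.cases ?_ (fun j => ?_) i
    · rw [xx_zero]
      have := sS_pos (W := W) (by omega : 0 < k) y
      omega
    · rw [xx_succ]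
      have : 0 < 1 + W * y j := by omega
      omega
  · intro i j
    refine Fin.cases ?_ (fun i' => ?_) i
    · refine Fin.cases ?_ (fun j' => ?_) j
      · intro h
        exact absurd rfl h
      · intro _
        rw [xx_zero, xx_succ]
        exact (Nat.isCoprime_iff_coprime.2 (hcop j').symm).neg_left
    · refine Fin.cases ?_ (fun j' => ?_) j
      · intro _
        rw [xx_zero, xx_succ]
        exact (Nat.isCoprime_iff_coprime.2 (hcop i')).neg_right
      · intro h
        rw [xx_succ, xx_succ]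
        exact Nat.isCoprime_iff_coprime.2 (hcop2 i' j' fun h' => h (by rw [h']))
  · rw [Fin.sum_univ_succ, xx_zero]
    have h1 : ∑ i : Fin k, xx W y i.succ = (sS W y : ℤ) := by
      unfold sS
      push_cast
      refine Finset.sum_congr rfl fun i _ => ?_
      rw [xx_succ]
      push_cast
      ring
    rw [h1]
    ring

theorem card_P1 {k W L p : ℕ} (hp : p.Prime) (hW : ¬ p ∣ W) {i l : Fin k} (hil : i ≠ l) :
    ((bx k L).filter fun y => p ∣ 1 + W * y i ∧ p ∣ 1 + W * y l).card ≤
      (L / p + 1) * (L / p + 1) * L ^ (k - 2) := by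
  refine card_two hil _ ((range L).filter fun t => p ∣ 1 + W * t) (card_lin hp hW 1) ?_ ?_
  · intro y hy h
    rw [Finset.mem_filter, Finset.mem_range]
    exact ⟨mem_bx.1 hy i, h.1⟩
  · intro y _
    refine (Finset.card_le_card ?_).trans (card_lin hp hW 1)
    intro t ht
    rw [Finset.mem_filter] at ht ⊢
    refine ⟨ht.1, ?_⟩
    have := ht.2.2
    rwa [Function.update_self] at this

theorem card_P2 {k W L p : ℕ} (hp : p.Prime) (hW : ¬ p ∣ W) {i l : Fin k} (hil : i ≠ l) :
    ((bx k L).filter fun y => p ∣ 1 + W * y i ∧ p ∣ sS W y).card ≤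
      (L / p + 1) * (L / p + 1) * L ^ (k - 2) := by
  classical
  refine card_two hil _ ((range L).filter fun t => p ∣ 1 + W * t) (card_lin hp hW 1) ?_ ?_
  · intro y hy h
    rw [Finset.mem_filter, Finset.mem_range]
    exact ⟨mem_bx.1 hy i, h.1⟩
  · intro y _
    refine (Finset.card_le_card ?_).trans
      (card_lin hp hW ((∑ j ∈ Finset.univ.erase l, (1 + W * y j)) + 1))
    intro t ht
    rw [Finset.mem_filter] at ht ⊢
    refine ⟨ht.1, ?_⟩
    have h := ht.2.2
    have h2 : sS W (Function.update y l t) =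
        (∑ j ∈ Finset.univ.erase l, (1 + W * y j)) + 1 + W * t := by
      unfold sS
      rw [← Finset.add_sum_erase _ _ (Finset.mem_univ l), Function.update_self]
      have h3 : ∑ j ∈ Finset.univ.erase l, (1 + W * Function.update y l t j) =
          ∑ j ∈ Finset.univ.erase l, (1 + W * y j) := by
        refine Finset.sum_congr rfl fun j hj => ?_
        rw [Function.update_of_ne (Finset.ne_of_mem_erase hj)]
      rw [h3]
      ring
    rwa [h2] at h

theorem card_bad {k L z W : ℕ} (hWdef : W = z.factorial) [DecidablePred (Bd k W)] :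
    ((bx k L).filter (Bd k W)).card ≤
      k * k * (∑ m ∈ Ioc z (W * L), 2 * ((L / m + 1) * (L / m + 1) * L ^ (k - 2))) := by
  classical
  have hsub : (bx k L).filter (Bd k W) ⊆
      (Finset.univ.filter fun q : Fin k × Fin k => q.1 ≠ q.2).biUnion fun q =>
        ((Ioc z (W * L)).filter Nat.Prime).biUnion fun p =>
          ((bx k L).filter fun y => p ∣ 1 + W * y q.1 ∧ p ∣ 1 + W * y q.2) ∪
            ((bx k L).filter fun y => p ∣ 1 + W * y q.1 ∧ p ∣ sS W y) := by
    intro y hy
    rw [Finset.mem_filter] at hy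
    obtain ⟨hy1, i, l, hil, p, hp, h1, h2⟩ := hy
    rw [Finset.mem_biUnion]
    refine ⟨(i, l), Finset.mem_filter.2 ⟨Finset.mem_univ _, hil⟩, ?_⟩
    rw [Finset.mem_biUnion]
    refine ⟨p, ?_, ?_⟩
    · rw [Finset.mem_filter, Finset.mem_Ioc]
      refine ⟨⟨?_, ?_⟩, hp⟩
      · by_contra h
        push Not at h
        have h3 : p ∣ W := by
          rw [hWdef]
          exact (Nat.Prime.dvd_factorial hp).2 h
        have h4 : p ∣ 1 := (Nat.dvd_add_left (h3.mul_right (y i))).1 h1
        exact hp.one_lt.ne' (Nat.dvd_one.1 h4)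
      · have h3 := Nat.le_of_dvd (by omega) h1
        have h4 : y i < L := mem_bx.1 hy1 i
        have h5 : 0 < W := by
          rw [hWdef]
          exact Nat.factorial_pos z
        have h6 : W * (y i + 1) ≤ W * L := Nat.mul_le_mul_left W h4
        rw [Nat.mul_add, Nat.mul_one] at h6
        omega
    · rw [Finset.mem_union, Finset.mem_filter, Finset.mem_filter]
      rcases h2 with h2 | h2
      · exact Or.inl ⟨hy1, h1, h2⟩
      · exact Or.inr ⟨hy1, h1, h2⟩
  refine (Finset.card_le_card hsub).trans (Finset.card_biUnion_le.trans ?_)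
  have hq : ∀ q ∈ (Finset.univ.filter fun q : Fin k × Fin k => q.1 ≠ q.2),
      (((Ioc z (W * L)).filter Nat.Prime).biUnion fun p =>
          ((bx k L).filter fun y => p ∣ 1 + W * y q.1 ∧ p ∣ 1 + W * y q.2) ∪
            ((bx k L).filter fun y => p ∣ 1 + W * y q.1 ∧ p ∣ sS W y)).card ≤
        ∑ m ∈ Ioc z (W * L), 2 * ((L / m + 1) * (L / m + 1) * L ^ (k - 2)) := by
    intro q hq
    have hil := (Finset.mem_filter.1 hq).2
    refine Finset.card_biUnion_le.trans ?_
    refine le_trans (Finset.sum_le_sum (g := fun m => 2 * ((L / m + 1) * (L / m + 1) *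
      L ^ (k - 2))) ?_) (Finset.sum_le_sum_of_subset (Finset.filter_subset _ _))
    intro p hp
    rw [Finset.mem_filter, Finset.mem_Ioc] at hp
    have hW : ¬ p ∣ W := by
      intro h
      rw [hWdef] at h
      have := (Nat.Prime.dvd_factorial hp.2).1 h
      omega
    refine (Finset.card_union_le _ _).trans ?_
    have h1 := card_P1 (L := L) hp.2 hW hil
    have h2 := card_P2 (L := L) hp.2 hW hil
    show _ ≤ 2 * ((L / p + 1) * (L / p + 1) * L ^ (k - 2))
    omega
  refine (Finset.sum_le_sum hq).trans ?_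
  rw [Finset.sum_const, smul_eq_mul]
  refine Nat.mul_le_mul_right _ ((Finset.card_filter_le _ _).trans ?_)
  rw [Finset.card_univ, Fintype.card_prod, Fintype.card_fin]

theorem card_bad_le {k L z W : ℕ} (hWdef : W = z.factorial) (hk : 2 ≤ k) (hz : z = 16 * k ^ 2)
    (hL : 16 * k ^ 2 * W ≤ L) [DecidablePred (Bd k W)] :
    (((bx k L).filter (Bd k W)).card : ℝ) ≤ (L : ℝ) ^ k / 2 := by
  have hW : 0 < W := by
    rw [hWdef]
    exact Nat.factorial_pos z
  have hk0 : (0 : ℝ) < k := by exact_mod_cast (by omega : 0 < k)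
  have hz0 : 0 < z := by
    rw [hz]
    positivity
  have hL0 : 0 < L := lt_of_lt_of_le (by positivity) hL
  have hL1 : (0 : ℝ) < L := by exact_mod_cast hL0
  have hW1 : (0 : ℝ) < W := by exact_mod_cast hW
  have hz1 : (0 : ℝ) < z := by exact_mod_cast hz0
  have h1 : (((bx k L).filter (Bd k W)).card : ℝ) ≤
      ((k * k * (∑ m ∈ Ioc z (W * L), 2 * ((L / m + 1) * (L / m + 1) * L ^ (k - 2))) : ℕ) : ℝ) := by
    exact_mod_cast card_bad hWdef
  refine h1.trans ?_
  push_cast
  have h2 : ∀ m ∈ Ioc z (W * L), (2 * ((((L / m : ℕ) : ℝ) + 1) * (((L / m : ℕ) : ℝ) + 1) *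
      (L : ℝ) ^ (k - 2))) ≤ 4 * (L : ℝ) ^ (k - 2) * ((L : ℝ) ^ 2 * ((m : ℝ) ^ 2)⁻¹ + 1) := by
    intro m hm
    rw [Finset.mem_Ioc] at hm
    have hm0 : (0 : ℝ) < m := by exact_mod_cast (by omega : 0 < m)
    have h3 : ((L / m : ℕ) : ℝ) ≤ (L : ℝ) / m := Nat.cast_div_le
    have h4 : (0 : ℝ) ≤ ((L / m : ℕ) : ℝ) := Nat.cast_nonneg _
    have h5 : (L : ℝ) ^ 2 * ((m : ℝ) ^ 2)⁻¹ = ((L : ℝ) / m) ^ 2 := by
      field_simp
    rw [h5]
    have h6 : (((L / m : ℕ) : ℝ) + 1) * (((L / m : ℕ) : ℝ) + 1) ≤ 2 * (((L : ℝ) / m) ^ 2 + 1) := by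
      nlinarith [sq_nonneg (((L / m : ℕ) : ℝ) - 1)]
    have h7 : (0 : ℝ) ≤ (L : ℝ) ^ (k - 2) := by positivity
    nlinarith
  have h3 : ∑ m ∈ Ioc z (W * L), ((m : ℝ) ^ 2)⁻¹ ≤ (z : ℝ)⁻¹ := by
    by_cases hzz : z ≤ W * L
    · refine (sum_Ioc_inv_sq_le_sub hz0.ne' hzz).trans ?_
      have : (0 : ℝ) ≤ ((W * L : ℕ) : ℝ)⁻¹ := by positivity
      linarith
    · rw [Finset.Ioc_eq_empty_of_le (by omega), Finset.sum_empty]
      positivity
  have h4 : ∑ m ∈ Ioc z (W * L), (2 * ((((L / m : ℕ) : ℝ) + 1) * (((L / m : ℕ) : ℝ) + 1) *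
      (L : ℝ) ^ (k - 2))) ≤ 4 * (L : ℝ) ^ (k - 2) * ((L : ℝ) ^ 2 * (z : ℝ)⁻¹ + W * L) := by
    refine (Finset.sum_le_sum h2).trans ?_
    rw [← Finset.mul_sum, Finset.sum_add_distrib, ← Finset.mul_sum]
    refine mul_le_mul_of_nonneg_left ?_ (by positivity)
    refine add_le_add (mul_le_mul_of_nonneg_left h3 (by positivity)) ?_
    rw [Finset.sum_const, nsmul_eq_mul, mul_one, Nat.card_Ioc]
    have : ((W * L - z : ℕ) : ℝ) ≤ ((W * L : ℕ) : ℝ) := by exact_mod_cast Nat.sub_le _ _
    refine this.trans ?_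
    push_cast
    exact le_rfl
  have hLk : (L : ℝ) ^ k = (L : ℝ) ^ (k - 2) * (L : ℝ) ^ 2 := by
    rw [← pow_add]
    congr 1
    omega
  have h5 : (L : ℝ) ^ 2 * (z : ℝ)⁻¹ = (L : ℝ) ^ 2 / (16 * k ^ 2) := by
    rw [hz]
    push_cast
    rw [div_eq_mul_inv]
  have h6 : (W : ℝ) * L ≤ (L : ℝ) ^ 2 / (16 * k ^ 2) := by
    rw [le_div_iff₀ (by positivity)]
    have h7 : (16 * (k : ℝ) ^ 2 * W) ≤ L := by exact_mod_cast hL
    nlinarith
  calc (k : ℝ) * k * (∑ m ∈ Ioc z (W * L), (2 * ((((L / m : ℕ) : ℝ) + 1) *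
        (((L / m : ℕ) : ℝ) + 1) * (L : ℝ) ^ (k - 2))))
      ≤ (k : ℝ) * k * (4 * (L : ℝ) ^ (k - 2) * ((L : ℝ) ^ 2 * (z : ℝ)⁻¹ + W * L)) :=
        mul_le_mul_of_nonneg_left h4 (by positivity)
    _ ≤ (k : ℝ) * k * (4 * (L : ℝ) ^ (k - 2) * ((L : ℝ) ^ 2 / (16 * k ^ 2) +
          (L : ℝ) ^ 2 / (16 * k ^ 2))) := by
        rw [h5]
        gcongr
    _ = (L : ℝ) ^ k / 2 := by
        rw [hLk]
        field_simp
        ring

/-- the set of the target -/
def SX (n : ℕ) (X : ℝ) : Set (Fin n → ℤ) :=
  {x : Fin n → ℤ | Admissible x ∧ (pd (prn x).primeFactors : ℝ) ≤ X ∧ (htn x : ℝ) ≤ X}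

theorem SX_fin (n : ℕ) (X : ℝ) : (SX n X).Finite := by
  refine (box_fin n ⌊X⌋₊).subset ?_
  intro x hx i
  have h1 : ((x i).natAbs : ℝ) ≤ X := by
    refine le_trans ?_ hx.2.2
    exact_mod_cast (Finset.le_sup (f := fun i => (x i).natAbs) (Finset.mem_univ i))
  exact Nat.le_floor h1

theorem pd_le_self {m : ℕ} (hm : m ≠ 0) : pd m.primeFactors ≤ m :=
  Nat.le_of_dvd (Nat.pos_of_ne_zero hm) (Nat.prod_primeFactors_dvd m)

theorem mem_SX {n : ℕ} {X Y : ℝ} {x : Fin n → ℤ} (hx : Admissible x)
    (h1 : ∀ i, ((x i).natAbs : ℝ) ≤ Y) (h2 : Y ^ n ≤ X) (h3 : Y ≤ X) (hX : 0 ≤ X) : x ∈ SX n X := by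
  refine ⟨hx, ?_, ?_⟩
  · refine le_trans ?_ h2
    have h4 : (pd (prn x).primeFactors : ℝ) ≤ (prn x : ℝ) := by
      exact_mod_cast pd_le_self (prn_ne hx)
    refine h4.trans ?_
    rw [prn_prod]
    push_cast
    calc ∏ i, ((x i).natAbs : ℝ) ≤ ∏ _i : Fin n, Y :=
          Finset.prod_le_prod (fun i _ => Nat.cast_nonneg _) fun i _ => h1 i
      _ = Y ^ n := by rw [Finset.prod_const, Finset.card_univ, Fintype.card_fin]
  · have h4 : htn x ≤ ⌊X⌋₊ := by
      unfold htn
      refine Finset.sup_le fun i _ => ?_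
      exact Nat.le_floor ((h1 i).trans h3)
    exact le_trans (by exact_mod_cast h4) (Nat.floor_le hX)

/-- a tuple with radical at most `2` -/
theorem small_tuple (k : ℕ) (hk : 2 ≤ k) : ∃ x : Fin (k + 1) → ℤ, Admissible x ∧ prn x ≤ 2 ∧
    ∀ i, (x i).natAbs ≤ 2 := by
  obtain ⟨m, rfl⟩ : ∃ m, k = m + 1 := ⟨k - 1, by omega⟩
  set a : ℤ := if Even m then -1 else -2 with ha
  set x : Fin (m + 1 + 1) → ℤ := Fin.cons a (Fin.cons 1 fun j : Fin m => (-1) ^ (j : ℕ)) with hx
  have h0 : x 0 = a := rfl
  have h1 : ∀ i : Fin (m + 1), (x i.succ).natAbs = 1 := by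
    intro i
    refine Fin.cases ?_ (fun j => ?_) i
    · rfl
    · show ((-1 : ℤ) ^ (j : ℕ)).natAbs = 1
      rw [Int.natAbs_pow]
      simp
  have ha2 : a.natAbs ≤ 2 := by
    rw [ha]
    split_ifs
    · decide
    · decide
  have ha0 : a ≠ 0 := by
    rw [ha]
    split_ifs
    · decide
    · decide
  refine ⟨x, ⟨?_, ?_, ?_⟩, ?_, ?_⟩
  · intro i
    refine Fin.cases ha0 (fun j => ?_) i
    have := h1 j
    intro h
    rw [h] at this
    exact absurd this (by decide)
  · intro i j hij
    rw [Int.isCoprime_iff_gcd_eq_one, Int.gcd]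
    revert hij
    refine Fin.cases ?_ (fun i' => ?_) i
    · refine Fin.cases ?_ (fun j' => ?_) j
      · intro h
        exact absurd rfl h
      · intro _
        rw [h1 j', Nat.gcd_one_right]
    · intro _
      rw [h1 i', Nat.gcd_one_left]
  · rw [Fin.sum_univ_succ, Fin.sum_univ_succ]
    show a + (1 + ∑ j : Fin m, (-1 : ℤ) ^ (j : ℕ)) = 0
    rw [Fin.sum_univ_eq_sum_range (fun j => (-1 : ℤ) ^ j) m, neg_one_geom_sum, ha]
    split_ifs
    · rfl
    · rfl
  · rw [prn_prod, Fin.prod_univ_succ, h0, Finset.prod_congr rfl fun i _ => h1 i]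
    simpa using ha2
  · intro i
    refine Fin.cases ha2 (fun j => ?_) i
    rw [h1 j]
    decide

theorem pf_LWN : T_LWN := by
  classical
  intro n hn
  obtain ⟨k, rfl⟩ : ∃ k, n = k + 1 := ⟨n - 1, by omega⟩
  have hk : 2 ≤ k := by omega
  obtain ⟨z, hz⟩ : ∃ z : ℕ, z = 16 * k ^ 2 := ⟨_, rfl⟩
  obtain ⟨W, hW⟩ : ∃ W : ℕ, W = z.factorial := ⟨_, rfl⟩
  have hW0 : 0 < W := by
    rw [hW]
    exact Nat.factorial_pos z
  have hW1 : (0 : ℝ) < W := by exact_mod_cast hW0
  have hk0 : (0 : ℝ) < k := by exact_mod_cast (by omega : 0 < k)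
  set A : ℝ := ((k : ℝ) + 1) * W with hA
  have hA0 : 0 < A := by positivity
  set Y1 : ℝ := A * (16 * k ^ 2 * W) with hY1
  have hY10 : 0 < Y1 := by positivity
  refine ⟨min (1 / 2 * (1 / (2 * A)) ^ k) (1 / Y1 ^ k), lt_min (by positivity) (by positivity), ?_⟩
  intro X hX
  have hX0 : (0 : ℝ) < X := by linarith
  set Y : ℝ := X ^ (1 / ((k : ℝ) + 1)) with hY
  have hYn : Y ^ (k + 1) = X := by
    rw [hY, ← Real.rpow_natCast, ← Real.rpow_mul hX0.le]
    push_cast
    rw [one_div, inv_mul_cancel₀ (by positivity), Real.rpow_one]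
  have hYk : X ^ (1 - 1 / (((k + 1 : ℕ) : ℕ) : ℝ)) = Y ^ k := by
    rw [hY, ← Real.rpow_natCast, ← Real.rpow_mul hX0.le]
    congr 1
    push_cast
    field_simp
    ring
  have hY0 : 0 < Y := Real.rpow_pos_of_pos hX0 _
  have hYX : Y ≤ X := by
    have h1 : Y ≤ X ^ (1 : ℝ) := by
      refine Real.rpow_le_rpow_of_exponent_le (by linarith) ?_
      rw [div_le_one (by positivity)]
      linarith
    rwa [Real.rpow_one] at h1
  rw [hYk]
  show _ ≤ ((SX (k + 1) X).ncard : ℝ)
  by_cases hbig : Y1 ≤ Y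
  · set L : ℕ := ⌊Y / A⌋₊ with hL
    have hL1 : 16 * k ^ 2 * W ≤ L := by
      apply Nat.le_floor
      rw [le_div_iff₀ hA0]
      push_cast
      refine le_trans (le_of_eq ?_) hbig
      rw [hY1]
      ring
    have hL2 : (L : ℝ) * A ≤ Y := by
      have := Nat.floor_le (a := Y / A) (by positivity)
      rwa [← hL, le_div_iff₀ hA0] at this
    have hL3 : 1 / (2 * A) * Y ≤ L := by
      have h1 := Nat.lt_floor_add_one (Y / A)
      rw [← hL] at h1
      have h2 : (2 : ℝ) ≤ Y / A := by
        rw [le_div_iff₀ hA0]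
        have h3 : (1 : ℝ) ≤ W := by exact_mod_cast hW0
        have h4 : (1 : ℝ) ≤ (k : ℝ) ^ 2 := by
          have : (1 : ℝ) ≤ k := by exact_mod_cast (by omega : 1 ≤ k)
          nlinarith
        have h5 : (2 : ℝ) ≤ 16 * k ^ 2 * W := by nlinarith
        refine le_trans ?_ hbig
        rw [hY1]
        nlinarith
      have h3 : 1 / (2 * A) * Y = (Y / A) / 2 := by
        field_simp
      rw [h3]
      linarith
    have hL0 : 0 < L := lt_of_lt_of_le (by positivity) hL1
    have hbad := card_bad_le hW hk hz hL1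
    have hgood : (L : ℝ) ^ k / 2 ≤ (((bx k L).filter fun y => ¬ Bd k W y).card : ℝ) := by
      have h1 := Finset.card_filter_add_card_filter_not (s := bx k L) (Bd k W)
      rw [card_bx] at h1
      have h2 : (((bx k L).filter (Bd k W)).card : ℝ) +
          (((bx k L).filter fun y => ¬ Bd k W y).card : ℝ) = (L : ℝ) ^ k := by
        exact_mod_cast h1
      linarith
    have hmem : ∀ y ∈ (bx k L).filter (fun y => ¬ Bd k W y), xx W y ∈ SX (k + 1) X := by
      intro y hy
      rw [Finset.mem_filter] at hy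
      refine mem_SX (adm_xx hk hy.2) ?_ hYn.le hYX hX0.le
      have hb : ∀ i, 1 + W * y i ≤ W * L := by
        intro i
        have h1 : W * (y i + 1) ≤ W * L := Nat.mul_le_mul_left W (mem_bx.1 hy.1 i)
        rw [Nat.mul_add, Nat.mul_one] at h1
        omega
      intro i
      refine Fin.cases ?_ (fun j => ?_) i
      · rw [xx_zero, Int.natAbs_neg, Int.natAbs_natCast]
        have h1 : sS W y ≤ k * (W * L) := by
          unfold sS
          refine (Finset.sum_le_sum fun i _ => hb i).trans ?_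
          rw [Finset.sum_const, Finset.card_univ, Fintype.card_fin, smul_eq_mul]
        have h2 : (sS W y : ℝ) ≤ (k : ℝ) * (W * L) := by exact_mod_cast h1
        refine h2.trans (le_trans ?_ hL2)
        rw [hA]
        have : (0 : ℝ) ≤ W * L := by positivity
        nlinarith
      · rw [xx_succ, Int.natAbs_natCast]
        have h2 : ((1 + W * y j : ℕ) : ℝ) ≤ (W : ℝ) * L := by exact_mod_cast hb j
        refine h2.trans (le_trans ?_ hL2)
        rw [hA]
        have : (0 : ℝ) ≤ W * L := by positivity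
        nlinarith
    have hcard : ((bx k L).filter fun y => ¬ Bd k W y).card ≤ (SX (k + 1) X).ncard := by
      rw [← Finset.card_image_of_injective _ (xx_inj hW0), ← Set.ncard_coe_finset]
      refine Set.ncard_le_ncard ?_ (SX_fin _ _)
      intro x hx
      rw [Finset.mem_coe, Finset.mem_image] at hx
      obtain ⟨y, hy, rfl⟩ := hx
      exact hmem y hy
    calc min (1 / 2 * (1 / (2 * A)) ^ k) (1 / Y1 ^ k) * Y ^ k
        ≤ (1 / 2 * (1 / (2 * A)) ^ k) * Y ^ k :=
          mul_le_mul_of_nonneg_right (min_le_left _ _) (by positivity)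
      _ = (1 / (2 * A) * Y) ^ k / 2 := by
          rw [mul_pow]
          ring
      _ ≤ (L : ℝ) ^ k / 2 := by
          have := pow_le_pow_left₀ (by positivity) hL3 k
          linarith
      _ ≤ (((bx k L).filter fun y => ¬ Bd k W y).card : ℝ) := hgood
      _ ≤ ((SX (k + 1) X).ncard : ℝ) := by exact_mod_cast hcard
  · push Not at hbig
    obtain ⟨x, hx1, hx2, hx3⟩ := small_tuple k hk
    have hxm : x ∈ SX (k + 1) X := by
      refine ⟨hx1, ?_, ?_⟩
      · have h1 := (pd_le_self (prn_ne hx1)).trans hx2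
        have h2 : (pd (prn x).primeFactors : ℝ) ≤ 2 := by exact_mod_cast h1
        exact h2.trans hX
      · have h1 : htn x ≤ 2 := by
          unfold htn
          exact Finset.sup_le fun i _ => hx3 i
        have h2 : (htn x : ℝ) ≤ 2 := by exact_mod_cast h1
        exact h2.trans hX
    have hcard : 1 ≤ (SX (k + 1) X).ncard :=
      (Set.ncard_pos (SX_fin _ _)).2 ⟨x, hxm⟩
    calc min (1 / 2 * (1 / (2 * A)) ^ k) (1 / Y1 ^ k) * Y ^ k ≤ 1 / Y1 ^ k * Y ^ k :=
          mul_le_mul_of_nonneg_right (min_le_right _ _) (by positivity)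
      _ ≤ 1 := by
          rw [one_div, inv_mul_le_iff₀ (by positivity), mul_one]
          exact pow_le_pow_left₀ hY0.le hbig.le k
      _ ≤ ((SX (k + 1) X).ncard : ℝ) := by exact_mod_cast hcard

end Pool.Agent.H18.AT
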